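import Pool.Agent.W_MP_d8b8b7_S.Statement
import Pool.Agent.W_MP_d8b8b7_gt.Statement

set_option autoImplicit false

/-!
The compact form of the statement follows from the working form.
-/

open scoped Manifold ContDiff

namespace Pool.Agent.W_MP_d8b8b7_S

universe u

open Pool.Agent

section

variable {M : Type u} [TopologicalSpace M] [c : ChartedSpace E4 M]

/-- the same atlas -/
@[reducible] noncomputable def oldChart (M : Type u) [TopologicalSpace M] [c : ChartedSpace E4 M] :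
    ChartedSpace (EuclideanSpace ℝ (Fin 4)) M := c

/-- the same form -/
noncomputable def oldForm {k : ℕ} (Ω : Form M k) : @W_MP_d8b8b7_gt.Form M _ (oldChart M) k := Ω

/-- the same form -/
noncomputable def newForm {k : ℕ} (Ω : @W_MP_d8b8b7_gt.Form M _ (oldChart M) k) : Form M k := Ω

/-- the same field -/
noncomputable def oldEndo (J : EndoField M) : @W_MP_d8b8b7_gt.EndoField M _ (oldChart M) := J

theorem locForm_old {k : ℕ} (Ω : Form M k) (p : M) (y : E4) :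
    @W_MP_d8b8b7_gt.locForm M _ (oldChart M) k (oldForm Ω) p y = locForm Ω p y := rfl

theorem locEndo_old (J : EndoField M) (p : M) (y : E4) :
    @W_MP_d8b8b7_gt.locEndo M _ (oldChart M) (oldEndo J) p y = locEndo J p y := rfl

theorem smooth_old {k : ℕ} (Ω : Form M k) :
    @W_MP_d8b8b7_gt.SmoothForm M _ (oldChart M) k (oldForm Ω) = SmoothForm Ω := rfl

theorem smoothEndo_old (J : EndoField M) :
    @W_MP_d8b8b7_gt.SmoothEndo M _ (oldChart M) (oldEndo J) = SmoothEndo J := rfl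

theorem isExtDeriv_old {k : ℕ} (Ω : Form M k) (θ : Form M (k + 1)) :
    @W_MP_d8b8b7_gt.IsExtDeriv M _ (oldChart M) k (oldForm Ω) (oldForm θ) = IsExtDeriv Ω θ := rfl

theorem closed_old {k : ℕ} (Ω : Form M k) :
    @W_MP_d8b8b7_gt.ClosedForm M _ (oldChart M) k (oldForm Ω) = ClosedForm Ω := rfl

theorem sympl_old {Ω : Form M 2} (h : IsSymplectic Ω) :
    @W_MP_d8b8b7_gt.IsSymplectic M _ (oldChart M) (oldForm Ω) :=
  @W_MP_d8b8b7_gt.IsSymplectic.mk M _ (oldChart M) (oldForm Ω) h.smooth h.closed h.nondeg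

theorem sympl_new {Ω : Form M 2}
    (h : @W_MP_d8b8b7_gt.IsSymplectic M _ (oldChart M) (oldForm Ω)) : IsSymplectic Ω :=
  ⟨@W_MP_d8b8b7_gt.IsSymplectic.smooth M _ (oldChart M) (oldForm Ω) h,
    @W_MP_d8b8b7_gt.IsSymplectic.closed M _ (oldChart M) (oldForm Ω) h,
    @W_MP_d8b8b7_gt.IsSymplectic.nondeg M _ (oldChart M) (oldForm Ω) h⟩

theorem ac_old {J : EndoField M} (h : IsAlmostComplex J) :
    @W_MP_d8b8b7_gt.IsAlmostComplex M _ (oldChart M) (oldEndo J) :=
  @W_MP_d8b8b7_gt.IsAlmostComplex.mk M _ (oldChart M) (oldEndo J) h.smooth h.sq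

theorem tame_old (Ω : Form M 2) (J : EndoField M) :
    @W_MP_d8b8b7_gt.Tame M _ (oldChart M) (oldForm Ω) (oldEndo J) = Tame Ω J := rfl

theorem compatible_old (Ω : Form M 2) (J : EndoField M) :
    @W_MP_d8b8b7_gt.Compatible M _ (oldChart M) (oldForm Ω) (oldEndo J) = Compatible Ω J := rfl

theorem cohom_old (Ω' Ω : Form M 2) :
    @W_MP_d8b8b7_gt.Cohomologous M _ (oldChart M) (oldForm Ω') (oldForm Ω) =
      Cohomologous Ω' Ω := rfl

theorem ratio_old (Ω α β : Form M 2) :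
    @W_MP_d8b8b7_gt.wedgeRatio M _ (oldChart M) (oldForm Ω) (oldForm α) (oldForm β) =
      ratio Ω α β := rfl

theorem integral_new {Ω : Form M 2} {Λ : (M → ℝ) → ℝ}
    (h : @W_MP_d8b8b7_gt.IsIntegral M _ (oldChart M) (oldForm Ω) Λ) : IsIntegral Ω Λ :=
  ⟨@W_MP_d8b8b7_gt.IsIntegral.add M _ (oldChart M) (oldForm Ω) Λ h,
    @W_MP_d8b8b7_gt.IsIntegral.smul M _ (oldChart M) (oldForm Ω) Λ h,
    @W_MP_d8b8b7_gt.IsIntegral.pos M _ (oldChart M) (oldForm Ω) Λ h,
    fun σ τ β h1 h2 h3 h4 =>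
      @W_MP_d8b8b7_gt.IsIntegral.stokes M _ (oldChart M) (oldForm Ω) Λ h (oldForm σ) (oldForm τ)
        (oldForm β) h1 h2 h3 h4⟩

theorem bplus_old {Ω : Form M 2} (h : BPlusOne Ω) :
    @W_MP_d8b8b7_gt.BPlusOne M _ (oldChart M) (oldForm Ω) := by
  rintro Λ hΛ ⟨α, β, h1, h2, h3, h4, h5⟩
  refine h Λ (integral_new hΛ) ⟨α, β, h1, h2, h3, h4, fun s t hst => ?_⟩
  refine h5 s t ?_
  intro h0
  rw [Prod.mk.injEq] at h0
  rcases hst with hs | ht
  · exact hs h0.1
  · exact ht h0.2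

end

/-- the compact form of the main statement -/
theorem main_of (hmain : W_MP_d8b8b7_gt.MainStatement.{u}) (M : Type u) [TopologicalSpace M]
    [ChartedSpace E4 M] [hM : IsManifold I4 ∞ M] [CompactSpace M] [T2Space M] (Ω : Form M 2)
    (J : EndoField M) (hΩ : IsSymplectic Ω) (hJ : IsAlmostComplex J) (ht : Tame Ω J) :
    ∃ Ω' : Form M 2, IsSymplectic Ω' ∧ Compatible Ω' J ∧ (BPlusOne Ω → Cohomologous Ω' Ω) := by
  obtain ⟨Ω', h1, h2, h3⟩ := @hmain M _ (oldChart M) hM _ _ (oldForm Ω) (oldEndo J)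
    (sympl_old hΩ) (ac_old hJ) ht
  exact ⟨newForm Ω', sympl_new h1, h2, fun hb => h3 (bplus_old hb)⟩

end Pool.Agent.W_MP_d8b8b7_S
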