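import Mathlib

set_option autoImplicit false

/-!
# MP_d8b8b7_gt: definitions for the statement

`M` is a smooth closed 4-manifold: a compact Hausdorff space with a smooth atlas modelled on
`E4 = EuclideanSpace ℝ (Fin 4)` (model with corners `I4 = 𝓘(ℝ, E4)`, so there is no boundary).
Differential forms are fields of alternating maps on the tangent spaces of Mathlib; smoothness,
the exterior derivative and closedness are expressed in the charts of the atlas.
Small auxiliary definitions (`E4`, `I4`, `T`, `val1`, ...) only keep the printed terms short.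
-/

open scoped Manifold ContDiff

namespace Pool.Agent.W_MP_d8b8b7_S

universe u

/-- `ℝ⁴` -/
def E4 : Type := EuclideanSpace ℝ (Fin 4)

noncomputable instance instE4 : NormedAddCommGroup E4 :=
  (inferInstance : NormedAddCommGroup (EuclideanSpace ℝ (Fin 4)))

noncomputable instance instE4' : NormedSpace ℝ E4 :=
  (inferInstance : NormedSpace ℝ (EuclideanSpace ℝ (Fin 4)))

/-- the model with corners of manifolds without boundary modelled on `ℝ⁴` -/
noncomputable def I4 : ModelWithCorners ℝ E4 E4 := 𝓘(ℝ, E4)

/-- alternating `k`-forms on `ℝ⁴` -/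
def Alt (k : ℕ) : Type := E4 [⋀^Fin k]→L[ℝ] ℝ

noncomputable instance instAlt (k : ℕ) : NormedAddCommGroup (Alt k) :=
  (inferInstance : NormedAddCommGroup (E4 [⋀^Fin k]→L[ℝ] ℝ))

noncomputable instance instAlt' (k : ℕ) : NormedSpace ℝ (Alt k) :=
  (inferInstance : NormedSpace ℝ (E4 [⋀^Fin k]→L[ℝ] ℝ))

/-- endomorphisms of `ℝ⁴` -/
def End4 : Type := E4 →L[ℝ] E4

noncomputable instance instEnd4 : NormedAddCommGroup End4 :=
  (inferInstance : NormedAddCommGroup (E4 →L[ℝ] E4))

noncomputable instance instEnd4' : NormedSpace ℝ End4 :=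
  (inferInstance : NormedSpace ℝ (E4 →L[ℝ] E4))

section Forms

variable {M : Type u} [TopologicalSpace M] [ChartedSpace E4 M]

/-- the tangent space of `M` at `x` -/
def T (x : M) : Type := TangentSpace I4 x

noncomputable instance instT (x : M) : TopologicalSpace (T x) :=
  (inferInstance : TopologicalSpace (TangentSpace I4 x))

noncomputable instance instT' (x : M) : AddCommGroup (T x) :=
  (inferInstance : AddCommGroup (TangentSpace I4 x))

noncomputable instance instT'' (x : M) : Module ℝ (T x) :=
  (inferInstance : Module ℝ (TangentSpace I4 x))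

/-- alternating `k`-forms on the tangent space at `x` -/
def AltT (x : M) (k : ℕ) : Type := T x [⋀^Fin k]→L[ℝ] ℝ

/-- endomorphisms of the tangent space at `x` -/
def EndT (x : M) : Type := T x →L[ℝ] T x

variable (M) in
/-- a field of alternating `k`-forms on the tangent spaces of `M` -/
def Form (k : ℕ) : Type u := ∀ x : M, AltT x k

variable (M) in
/-- a field of endomorphisms of the tangent spaces of `M` -/
def EndoField : Type u := ∀ x : M, EndT x

/-- value of a 2-form on two tangent vectors -/
noncomputable def val2 (η : Form M 2) (x : M) (u v : T x) : ℝ :=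
  (show T x [⋀^Fin 2]→L[ℝ] ℝ from η x) ![u, v]

/-- value of a field of endomorphisms on a tangent vector -/
noncomputable def app (J : EndoField M) (x : M) (v : T x) : T x :=
  (show T x →L[ℝ] T x from J x) v

/-- the range in `ℝ⁴` of the chart at `c` -/
noncomputable def dom (c : M) : Set E4 := (extChartAt I4 c).target

/-- the inverse of the chart at `c` -/
noncomputable def inv (c : M) (y : E4) : M := (extChartAt I4 c).symm y

/-- the derivative of the inverse chart at `y` -/
noncomputable def dInv (c : M) (y : E4) : E4 →L[ℝ] T (inv c y) :=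
  mfderiv I4 I4 (extChartAt I4 c).symm y

/-- the derivative of the chart at the point `inv c y` -/
noncomputable def dChart (c : M) (y : E4) : T (inv c y) →L[ℝ] E4 :=
  mfderiv I4 I4 (extChartAt I4 c) (inv c y)

/-- the expression of a form in the chart at `c`: its pull-back by the inverse chart -/
noncomputable def locForm {k : ℕ} (η : Form M k) (c : M) (y : E4) : Alt k :=
  (show T (inv c y) [⋀^Fin k]→L[ℝ] ℝ from η (inv c y)).compContinuousLinearMap (dInv c y)

/-- the expression of a field of endomorphisms in the chart at `c` -/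
noncomputable def locEndo (J : EndoField M) (c : M) (y : E4) : End4 :=
  (dChart c y).comp ((show T (inv c y) →L[ℝ] T (inv c y) from J (inv c y)).comp (dInv c y))

/-- the exterior derivative on `ℝ⁴` -/
noncomputable def dLoc {k : ℕ} (η : E4 → Alt k) (y : E4) : Alt (k + 1) :=
  extDeriv (E := E4) (F := ℝ) (n := k) η y

/-- the form is smooth in every chart -/
def SmoothForm {k : ℕ} (η : Form M k) : Prop :=
  ∀ c : M, ContDiffOn ℝ ∞ (locForm η c) (dom c)

/-- the field of endomorphisms is smooth in every chart -/
def SmoothEndo (J : EndoField M) : Prop :=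
  ∀ c : M, ContDiffOn ℝ ∞ (locEndo J c) (dom c)

/-- `dη = θ` (in every chart) -/
def IsExtDeriv {k : ℕ} (η : Form M k) (θ : Form M (k + 1)) : Prop :=
  ∀ c : M, ∀ y ∈ dom c, dLoc (locForm η c) y = locForm θ c y

/-- `dη = 0` (in every chart) -/
def ClosedForm {k : ℕ} (η : Form M k) : Prop :=
  ∀ c : M, ∀ y ∈ dom c, dLoc (locForm η c) y = 0

/-- symplectic form: smooth, closed and nondegenerate -/
structure IsSymplectic (Ω : Form M 2) : Prop where
  smooth : SmoothForm Ω
  closed : ClosedForm Ω
  nondeg : ∀ (x : M) (v : T x), (∀ w : T x, val2 Ω x v w = 0) → v = 0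

/-- smooth almost complex structure -/
structure IsAlmostComplex (J : EndoField M) : Prop where
  smooth : SmoothEndo J
  sq : ∀ (x : M) (v : T x), app J x (app J x v) = -v

/-- `J` is `Ω`-tame -/
def Tame (Ω : Form M 2) (J : EndoField M) : Prop :=
  ∀ (x : M) (v : T x), v ≠ 0 → 0 < val2 Ω x v (app J x v)

/-- `Ω` is compatible with `J` -/
def Compatible (Ω : Form M 2) (J : EndoField M) : Prop :=
  Tame Ω J ∧ ∀ (x : M) (u v : T x), val2 Ω x (app J x u) (app J x v) = val2 Ω x u v

/-- the linear combination `s α + t β` -/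
noncomputable def lin (s t : ℝ) (α β : Form M 2) : Form M 2 := fun x =>
  s • (show T x [⋀^Fin 2]→L[ℝ] ℝ from α x) + t • (show T x [⋀^Fin 2]→L[ℝ] ℝ from β x)

/-- the difference `α - β` -/
noncomputable def sub (α β : Form M 2) : Form M 2 := fun x =>
  (show T x [⋀^Fin 2]→L[ℝ] ℝ from α x) - (show T x [⋀^Fin 2]→L[ℝ] ℝ from β x)

/-- `[Ω'] = [Ω]` in `H²(M; ℝ)`: the difference is the exterior derivative of a smooth 1-form -/
def Cohomologous (Ω' Ω : Form M 2) : Prop :=
  ∃ σ : Form M 1, SmoothForm σ ∧ IsExtDeriv σ (sub Ω' Ω)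

/-! ### the intersection form -/

/-- the `i`-th vector of the standard basis of `ℝ⁴`, as a tangent vector -/
noncomputable def basis (x : M) (i : Fin 4) : T x :=
  (EuclideanSpace.single i (1 : ℝ) : EuclideanSpace ℝ (Fin 4))

/-- a coefficient of a 2-form -/
noncomputable def co (α : Form M 2) (x : M) (i j : Fin 4) : ℝ := val2 α x (basis x i) (basis x j)

/-- the value of `α ∧ β` on the standard basis -/
noncomputable def wedge (α β : Form M 2) (x : M) : ℝ :=
  co α x 0 1 * co β x 2 3 - co α x 0 2 * co β x 1 3 + co α x 0 3 * co β x 1 2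
    + co α x 1 2 * co β x 0 3 - co α x 1 3 * co β x 0 2 + co α x 2 3 * co β x 0 1

/-- the function `(α ∧ β) / (Ω ∧ Ω)` on `M` -/
noncomputable def ratio (Ω α β : Form M 2) (x : M) : ℝ := wedge α β x / wedge Ω Ω x

/-- smooth functions -/
def SmoothFun (f : M → ℝ) : Prop := ContMDiff I4 𝓘(ℝ, ℝ) ∞ f

/-- `Λ` is integration on `M` of functions against the volume form `Ω ∧ Ω` (up to a positive constant
factor on every component of `M`): a positive linear functional on smooth functions with
`∫ dσ ∧ β = 0` for all smooth 1-forms `σ` and all smooth closed 2-forms `β`.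

These functionals kill every exact 4-form: with a partition of unity it is a sum of forms
`d (f dx₁ ∧ dx₂ ∧ dx₃)` with `f` supported in a chart, and this is `dσ ∧ β` for `σ = f dx₁` and the closed
form `β = d (χ x₂ dx₃)`, `χ = 1` on the support of `f`. As `H⁴ = ℝ` for every component of `M`, they are
exactly the positive multiples, on every component, of integration for the orientation `Ω ∧ Ω`. -/
structure IsIntegral (Ω : Form M 2) (Λ : (M → ℝ) → ℝ) : Prop where
  add : ∀ f g : M → ℝ, SmoothFun f → SmoothFun g → Λ (fun x => f x + g x) = Λ f + Λ g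
  smul : ∀ (c : ℝ) (f : M → ℝ), SmoothFun f → Λ (fun x => c * f x) = c * Λ f
  pos : ∀ f : M → ℝ, SmoothFun f → (∀ x, 0 ≤ f x) → (∃ x, f x ≠ 0) → 0 < Λ f
  stokes : ∀ (σ : Form M 1) (τ β : Form M 2), SmoothForm σ → IsExtDeriv σ τ →
    SmoothForm β → ClosedForm β → Λ (ratio Ω τ β) = 0

/-- `b⁺(M) ≤ 1` for the orientation given by `Ω ∧ Ω` (for a symplectic form `Ω` on a nonempty `M` this
means `b⁺(M) = 1`): there is no 2-dimensional space of closed 2-forms on which
`α ↦ ∫ α ∧ α` is positive definite. -/
def BPlusOne (Ω : Form M 2) : Prop :=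
  ∀ Λ : (M → ℝ) → ℝ, IsIntegral Ω Λ → ¬ ∃ α β : Form M 2, SmoothForm α ∧ ClosedForm α ∧
    SmoothForm β ∧ ClosedForm β ∧ ∀ s t : ℝ, (s ≠ 0 ∨ t ≠ 0) →
      0 < Λ (ratio Ω (lin s t α β) (lin s t α β))

end Forms

end Pool.Agent.W_MP_d8b8b7_S
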